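import Pool.Agent.H835R5.Stmts2

set_option autoImplicit false

open CategoryTheory AlgebraicGeometry TopologicalSpace Opposite
open Pool.Agent.Helper198.Sch

namespace Pool.Agent.H87R3.KZ

open Pool.Agent.H835R5

attribute [local instance] MvPolynomial.gradedAlgebra

lemma gq_rel (R : Type) [CommRing R] : gq R 1 ^ 2 + gq R 1 - gq R 0 ^ 3 = 0 := by
  have h : Ideal.Quotient.mk (Ideal.span {relQ R}) (relQ R) = 0 :=
    Ideal.Quotient.eq_zero_iff_mem.2 (Ideal.mem_span_singleton_self _)
  unfold relQ at h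
  rw [map_sub, map_add, map_pow, map_pow] at h
  exact h

/-- the universal point -/
noncomputable def uu (R : Type) [CommRing R] (c : Fin 3) (i : Fin 3) : QQ R :=
  if i = c then 1 else if i = 0 then gq R 0 else gq R 1

theorem chart (R : Type) [CommRing R] (c o : Fin 3) (h0c : (0 : Fin 3) ≠ c) (h0o : (0 : Fin 3) ≠ o)
    (hoc : o ≠ c) (hcases : ∀ i : Fin 3, i = 0 ∨ i = o ∨ i = c)
    (hrel : ∀ (E : Type) [CommRing E] [Algebra R E] (u : Fin 3 → E), u c = 1 →
      MvPolynomial.aeval u (cubic R) = u o ^ 2 + u o - u 0 ^ 3) :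
    ∃ e : Ch (JE R) c ≃ₐ[R] QQ R, e (frac (JE R) c 0) = gq R 0 ∧ e (frac (JE R) c o) = gq R 1 := by
  have uc : uu R c c = 1 := by simp [uu]
  have u0 : uu R c 0 = gq R 0 := by simp [uu, h0c]
  have uo : uu R c o = gq R 1 := by simp [uu, hoc, h0o.symm]
  have hu : ∀ f ∈ (JE R).toIdeal, MvPolynomial.aeval (uu R c) f = 0 := by
    apply aeval_ofSet
    intro f hf
    rw [Set.mem_singleton_iff.1 hf, hrel _ _ uc, uo, u0]
    exact gq_rel R
  have hfr : frac (JE R) c o ^ 2 + frac (JE R) c o - frac (JE R) c 0 ^ 3 = 0 := by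
    have h1 := aeval_frac_eq_zero (JE R) c (cubic R) (mem_ofSet (Set.mem_singleton _))
    rw [hrel _ _ (frac_self _ _)] at h1
    exact h1
  let F : Ch (JE R) c →ₐ[R] QQ R := chLift (JE R) c (uu R c) uc hu
  have hF : ∀ i, F (frac (JE R) c i) = uu R c i := fun i => chLift_frac (JE R) c (uu R c) uc hu i
  let B : QQ R →ₐ[R] Ch (JE R) c := Ideal.Quotient.liftₐ (Ideal.span {relQ R})
    (MvPolynomial.aeval ![frac (JE R) c 0, frac (JE R) c o]) (by
      have h2 : Ideal.span {relQ R} ≤ RingHom.ker
        (MvPolynomial.aeval ![frac (JE R) c 0, frac (JE R) c o] :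
          MvPolynomial (Fin 2) R →ₐ[R] Ch (JE R) c).toRingHom := by
        rw [Ideal.span_le, Set.singleton_subset_iff]
        change MvPolynomial.aeval _ (relQ R) = 0
        unfold relQ
        rw [map_sub, map_add, map_pow, map_pow, MvPolynomial.aeval_X, MvPolynomial.aeval_X]
        exact hfr
      intro f hf
      exact h2 hf)
  have hB : ∀ s, B (gq R s) = ![frac (JE R) c 0, frac (JE R) c o] s := by
    intro s
    change MvPolynomial.aeval _ (MvPolynomial.X s) = _
    rw [MvPolynomial.aeval_X]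
  have hB0 : B (gq R 0) = frac (JE R) c 0 := hB 0
  have hB1 : B (gq R 1) = frac (JE R) c o := hB 1
  have e1 : F.comp B = AlgHom.id R _ := by
    apply Ideal.Quotient.algHom_ext
    apply MvPolynomial.algHom_ext
    intro s
    change F (B (gq R s)) = gq R s
    fin_cases s
    · change F (B (gq R 0)) = gq R 0
      rw [hB0, hF, u0]
    · change F (B (gq R 1)) = gq R 1
      rw [hB1, hF, uo]
  have e2 : B.comp F = AlgHom.id R _ := by
    apply ch_algHom_ext
    intro i
    rw [AlgHom.comp_apply, AlgHom.id_apply, hF]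
    rcases hcases i with rfl | rfl | rfl
    · rw [u0, hB0]
    · rw [uo, hB1]
    · rw [uc, map_one, frac_self]
  refine ⟨AlgEquiv.ofAlgHom F B e1 e2, ?_, ?_⟩
  · change F (frac (JE R) c 0) = _
    rw [hF, u0]
  · change F (frac (JE R) c o) = _
    rw [hF, uo]

theorem taskCh : TaskCh := by
  intro R _
  constructor
  · apply chart R 2 1 (by decide) (by decide) (by decide) (by decide)
    intro E _ _ u hu
    unfold cubic
    simp only [map_sub, map_add, map_mul, map_pow, MvPolynomial.aeval_X]
    rw [hu]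
    ring
  · apply chart R 1 2 (by decide) (by decide) (by decide) (by decide)
    intro E _ _ u hu
    unfold cubic
    simp only [map_sub, map_add, map_mul, map_pow, MvPolynomial.aeval_X]
    rw [hu]
    ring

end Pool.Agent.H87R3.KZ
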